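import Pool.Agent.W_a4f561_P8.Sep8

/-!
MP_a4f561_co, polylog pages (helper1's proof): THE OUTER LOOP, i.e. the order of the starts (helper34). Abstract in the
machine: `Q` = type of the states, `S σ` = drawn vertices, `pi σ` = choice function, `M U0 k own σ` = invariants of the
machine at present rank `k`, where `U0` = vertices drawn before the rank and `own u` = root of the piece of `u`.
-/

set_option autoImplicit false

namespace Pool.Agent.W_a4f561_P34

open Pool.Agent.W_a4f561_h26 Pool.Agent.W_a4f561_P8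

variable {V : Type}

/-- What the loop knows of the drawn part: `k` = present rank, `U0` = drawn before the rank, `own` = root. -/
structure Lp (G : Bars V) (rk : V → ℕ) (S : Set V) (pi : V → V) (U0 : Set V) (k : ℕ) (own : V → V) : Prop where
  bot_mem : G.bot ∈ S
  top_mem : G.top ∈ S
  ch : Ch G pi
  cl : ∀ v ∈ S, pi v ∈ S
  sub0 : U0 ⊆ S
  bot0 : G.bot ∈ U0
  top0 : G.top ∈ U0
  cl0 : ∀ v ∈ U0, pi v ∈ U0
  low : ∀ v, rk v < k → v ∈ U0
  own_mem : ∀ u ∈ S, G.inn u → own u ∈ S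
  own_inn : ∀ u ∈ S, G.inn u → G.inn (own u)
  own_orb : ∀ u ∈ S, G.inn u → Orb pi (own u) u
  own_own : ∀ u ∈ S, G.inn u → own (own u) = own u
  own_le : ∀ u ∈ S, G.inn u → rk (own u) ≤ k
  own0 : ∀ u ∈ U0, G.inn u → own u ∈ U0 ∧ rk (own u) < k
  own1 : ∀ u ∈ S, u ∉ U0 → own u ∉ U0 ∧ rk (own u) = k
  step : ∀ u ∈ S, G.inn u → G.inn (pi u) → own (pi u) = own u ∨ rk (own (pi u)) < rk (own u)

/-- The result of the piece of `v`. -/
structure Pc (G : Bars V) (S : Set V) (pi : V → V) (S' : Set V) (pi' : V → V) (v : V) : Prop where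
  sub : S ⊆ S'
  pi : ∀ u ∈ S, pi' u = pi u
  ch : Ch G pi'
  cl : ∀ u ∈ S', pi' u ∈ S'
  start : v ∈ S'
  orb : ∀ u ∈ S', u ∉ S → Orb pi' v u

/-- The new roots. -/
noncomputable def own' (S : Set V) (own : V → V) (v u : V) : V := by
  classical exact if u ∈ S then own u else v

theorem own'_mem {S : Set V} {own : V → V} {v u : V} (h : u ∈ S) : own' S own v u = own u := by
  unfold own'
  rw [if_pos h]

theorem own'_not {S : Set V} {own : V → V} {v u : V} (h : u ∉ S) : own' S own v u = v := by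
  unfold own'
  rw [if_neg h]

theorem orb_in {π π' : V → V} {S : Set V} (hS : ∀ v ∈ S, π v ∈ S) (he : ∀ v ∈ S, π' v = π v) {u w : V}
    (hu : u ∈ S) (h : Orb π u w) : Orb π' u w ∧ w ∈ S := by
  obtain ⟨k, rfl⟩ := h
  have key : ∀ j, π'^[j] u = π^[j] u ∧ π^[j] u ∈ S := by
    intro j
    induction j with
    | zero => exact ⟨rfl, hu⟩
    | succ j ih =>
      rw [Function.iterate_succ_apply', Function.iterate_succ_apply', ih.1]
      exact ⟨he _ ih.2, hS _ ih.2⟩
  exact ⟨⟨k, (key k).1⟩, (key k).2⟩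

/-- If a route comes to a vertex outside of a closed set, it was outside all the time. -/
theorem orb_out {G : Bars V} {π : V → V} (hπ : Ch G π) {U : Set V} (hU : ∀ w ∈ U, π w ∈ U) {a b : V} (h : Orb π a b)
    (hb : b ∉ U) : ∀ w, Orb π a w → G.t w ≤ G.t b → w ∉ U := fun _ h1 h2 h3 =>
  hb (orb_in hU (fun _ _ => rfl) h3 (orb_comp hπ h1 h h2)).2

/-- The drawn part of a root is a walk which avoids `U0`. -/
theorem Lp.walk {G : Bars V} {rk : V → ℕ} {S : Set V} {pi : V → V} {U0 : Set V} {k : ℕ} {own : V → V}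
    (h : Lp G rk S pi U0 k own) {u : V} (hu : u ∈ S) (hu0 : u ∉ U0) : Walk G U0 (own u) u := by
  have hi : G.inn u := ⟨fun e => hu0 (e ▸ h.bot0), fun e => hu0 (e ▸ h.top0)⟩
  exact walk_of_orb h.ch hu0 h.bot0 h.top0 (h.own_orb u hu hi) (orb_out h.ch h.cl0 (h.own_orb u hu hi) hu0)

/-- A vertex which is reached from a start of the present rank and from the piece of another root of this rank. -/
theorem Lp.sep {G : Bars V} {rk : V → ℕ} (hr : Rks G rk) {S : Set V} {pi : V → V} {U0 : Set V} {k : ℕ} {own : V → V}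
    (h : Lp G rk S pi U0 k own) {v : V} (hv : v ∉ S) (hk : rk v = k) {u w : V} (hu : u ∈ S) (hu0 : u ∉ U0)
    (h1 : Walk G U0 u w) (h2 : Walk G U0 v w) : False := by
  have h3 := h.own1 u hu hu0
  have hi : G.inn u := ⟨fun e => hu0 (e ▸ h.bot0), fun e => hu0 (e ▸ h.top0)⟩
  have h4 := h.own_mem u hu hi
  exact sep_walk hr h.ch h.cl0 h.bot0 h.top0 (v := v) (v' := own u) (fun e => hv (e ▸ h4)) (by rw [hk, h3.2])
    (fun w hw => h.low w (by omega)) (fun e => hv (h.sub0 e)) h3.1 h2 ((h.walk hu hu0).trans h1)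

/-- One more piece. -/
theorem Lp.piece {G : Bars V} {rk : V → ℕ} (hr : Rks G rk) {S : Set V} {pi : V → V} {U0 : Set V} {k : ℕ} {own : V → V}
    (h : Lp G rk S pi U0 k own) {v : V} (hv : v ∉ S) (hk : rk v = k) {S' : Set V} {pi' : V → V}
    (hp : Pc G S pi S' pi' v) : Lp G rk S' pi' U0 k (own' S own v) := by
  have hvi : G.inn v := ⟨fun e => hv (e ▸ h.bot_mem), fun e => hv (e ▸ h.top_mem)⟩
  have hpi0 : ∀ w ∈ U0, pi' w = pi w := fun w hw => hp.pi w (h.sub0 hw)
  have hcl0 : ∀ w ∈ U0, pi' w ∈ U0 := fun w hw => by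
    rw [hpi0 w hw]
    exact h.cl0 w hw
  refine ⟨hp.sub h.bot_mem, hp.sub h.top_mem, hp.ch, hp.cl, fun u hu => hp.sub (h.sub0 hu), h.bot0, h.top0, hcl0,
    h.low, ?_, ?_, ?_, ?_, ?_, ?_, ?_, ?_⟩
  · intro u hu hi
    by_cases h1 : u ∈ S
    · rw [own'_mem h1]
      exact hp.sub (h.own_mem u h1 hi)
    · rw [own'_not h1]
      exact hp.start
  · intro u hu hi
    by_cases h1 : u ∈ S
    · rw [own'_mem h1]
      exact h.own_inn u h1 hi
    · rw [own'_not h1]
      exact hvi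
  · intro u hu hi
    by_cases h1 : u ∈ S
    · rw [own'_mem h1]
      exact (orb_in h.cl hp.pi (h.own_mem u h1 hi) (h.own_orb u h1 hi)).1
    · rw [own'_not h1]
      exact hp.orb u hu h1
  · intro u hu hi
    by_cases h1 : u ∈ S
    · rw [own'_mem h1, own'_mem (h.own_mem u h1 hi)]
      exact h.own_own u h1 hi
    · rw [own'_not h1, own'_not hv]
  · intro u hu hi
    by_cases h1 : u ∈ S
    · rw [own'_mem h1]
      exact h.own_le u h1 hi
    · rw [own'_not h1, hk]
  · intro u hu hi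
    rw [own'_mem (h.sub0 hu)]
    exact h.own0 u hu hi
  · intro u hu hu0
    by_cases h1 : u ∈ S
    · rw [own'_mem h1]
      exact h.own1 u h1 hu0
    · rw [own'_not h1]
      exact ⟨fun e => hv (h.sub0 e), hk⟩
  · intro u hu hi hi'
    by_cases h1 : u ∈ S
    · rw [own'_mem h1, hp.pi u h1, own'_mem (h.cl u h1)]
      rw [hp.pi u h1] at hi'
      exact h.step u h1 hi hi'
    · rw [own'_not h1]
      by_cases h2 : pi' u ∈ S
      · rw [own'_mem h2]
        right
        by_cases h3 : pi' u ∈ U0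
        · rw [hk]
          exact (h.own0 _ h3 hi').2
        · exfalso
          have h4 : Orb pi' v (pi' u) := orb_step (hp.orb u hu h1)
          have h5 := walk_of_orb hp.ch h3 h.bot0 h.top0 h4 (orb_out hp.ch hcl0 h4 h3)
          exact h.sep hr hv hk h2 h3 (Walk.refl _) h5
      · rw [own'_not h2]
        exact Or.inl rfl

/-- The next rank. -/
theorem Lp.next {G : Bars V} {rk : V → ℕ} {S : Set V} {pi : V → V} {U0 : Set V} {k : ℕ} {own : V → V}
    (h : Lp G rk S pi U0 k own) (hall : ∀ v, rk v ≤ k → v ∈ S) : Lp G rk S pi S (k + 1) own :=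
  ⟨h.bot_mem, h.top_mem, h.ch, h.cl, subset_rfl, h.bot_mem, h.top_mem, h.cl, fun v hv => hall v (by omega),
    h.own_mem, h.own_inn, h.own_orb, h.own_own, fun u hu hi => (h.own_le u hu hi).trans (Nat.le_succ k),
    fun u hu hi => ⟨h.own_mem u hu hi, Nat.lt_succ_of_le (h.own_le u hu hi)⟩, fun u hu hu' => absurd hu hu', h.step⟩

/-- **THE OUTER LOOP.** -/
theorem loop [Fintype V] {G : Bars V} {rk : V → ℕ} (hr : Rks G rk) {Q : Type} (S : Q → Set V) (pi : Q → V → V)
    (M : Set V → ℕ → (V → V) → Q → Prop)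
    (step : ∀ U0 k own σ v T0 T1, M U0 k own σ → Lp G rk (S σ) (pi σ) U0 k own → v ∉ S σ → rk v = k →
      G.b v ≤ T0 → T0 ≤ G.t v → G.t v < T1 → (∀ u, T1 ≤ G.N → G.b u ≤ T1 → T1 ≤ G.t u → u ∈ U0) →
      (∀ u ∈ S σ, G.inn u → ¬ (T0 < G.b (own u) ∧ G.t (own u) < T1)) →
      ∃ σ', Pc G (S σ) (pi σ) (S σ') (pi σ') v ∧ M U0 k (own' (S σ) own v) σ')
    (next : ∀ U0 k own σ, M U0 k own σ → Lp G rk (S σ) (pi σ) U0 k own → (∀ v, rk v ≤ k → v ∈ S σ) →
      M (S σ) (k + 1) own σ)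
    (σ0 : Q) (hS0 : S σ0 = {G.bot, G.top}) (hch : Ch G (pi σ0)) (own0 : V → V) (h0 : M (S σ0) 0 own0 σ0) (K : ℕ) :
    ∃ σ U0 own, M U0 K own σ ∧ Lp G rk (S σ) (pi σ) U0 K own ∧ U0 = S σ := by
  classical
  induction K with
  | zero =>
    refine ⟨σ0, S σ0, own0, h0, ?_, rfl⟩
    have hno : ∀ u ∈ S σ0, G.inn u → False := by
      intro u hu hi
      rw [hS0] at hu
      rcases hu with rfl | rfl
      · exact hi.1 rfl
      · exact hi.2 rfl
    have hb : G.bot ∈ S σ0 := by rw [hS0]; exact Or.inl rfl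
    have ht : G.top ∈ S σ0 := by rw [hS0]; exact Or.inr rfl
    have hcl : ∀ v ∈ S σ0, pi σ0 v ∈ S σ0 := by
      intro u hu
      rw [hS0] at hu ⊢
      rcases hu with rfl | rfl
      · rw [hch.1]; exact Or.inl rfl
      · rw [hch.2.1]; exact Or.inr rfl
    exact ⟨hb, ht, hch, hcl, subset_rfl, hb, ht, hcl, fun v hv => absurd hv (Nat.not_lt_zero _),
      fun u hu hi => (hno u hu hi).elim, fun u hu hi => (hno u hu hi).elim, fun u hu hi => (hno u hu hi).elim,
      fun u hu hi => (hno u hu hi).elim, fun u hu hi => (hno u hu hi).elim, fun u hu hi => (hno u hu hi).elim,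
      fun u hu hu' => absurd hu hu', fun u hu hi => (hno u hu hi).elim⟩
  | succ k ih =>
    obtain ⟨σ, U0, own, hM, hL, hU⟩ := ih
    subst hU
    -- the vertices of rank `k`
    have key : ∀ P : Finset V, ∃ σ' own', M (S σ) k own' σ' ∧ Lp G rk (S σ') (pi σ') (S σ) k own' ∧
        ∀ v ∈ P, rk v = k → v ∈ S σ' := by
      intro P
      induction P using Finset.induction_on with
      | empty => exact ⟨σ, own, hM, hL, fun v hv => absurd hv (Finset.notMem_empty _)⟩
      | @insert v P _ ihP =>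
        obtain ⟨σ', own', hM', hL', hP⟩ := ihP
        by_cases hv : v ∈ S σ' ∨ rk v ≠ k
        · refine ⟨σ', own', hM', hL', fun w hw hk => ?_⟩
          rcases Finset.mem_insert.1 hw with rfl | hw
          · exact hv.resolve_right (fun h => h hk)
          · exact hP w hw hk
        · rw [not_or, not_not] at hv
          have hvi : G.inn v := ⟨fun e => hv.1 (e ▸ hL'.bot_mem), fun e => hv.1 (e ▸ hL'.top_mem)⟩
          obtain ⟨T0, T1, h1, h2, h3, h4, h5⟩ := hr.win v hvi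
          obtain ⟨σ'', hp, hM''⟩ := step (S σ) k own' σ' v T0 T1 hM' hL' hv.1 hv.2 h1 h2 h3
            (fun u hT k1 k2 => hL'.low u (by rw [← hv.2]; exact h4 hT u k1 k2))
            (fun u hu hi hc => by
              have k1 := h5 (own' u) (hL'.own_inn u hu hi) hc.1 hc.2
              have k2 := hL'.own_le u hu hi
              omega)
          refine ⟨σ'', _, hM'', hL'.piece hr hv.1 hv.2 hp, fun w hw hk => ?_⟩
          rcases Finset.mem_insert.1 hw with rfl | hw
          · exact hp.start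
          · exact hp.sub (hP w hw hk)
    obtain ⟨σ', own', hM', hL', hP⟩ := key Finset.univ
    have hall : ∀ v, rk v ≤ k → v ∈ S σ' := by
      intro v hv
      rcases Nat.lt_or_ge (rk v) k with h1 | h1
      · exact hL'.sub0 (hL'.low v h1)
      · exact hP v (Finset.mem_univ _) (by omega)
    exact ⟨σ', S σ', own', next _ _ _ _ hM' hL' hall, hL'.next hall, rfl⟩

/-- The loop till the end: everything is drawn, and along a route the piece changes only to a smaller rank. -/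
theorem loop_end [Fintype V] {G : Bars V} {rk : V → ℕ} (hr : Rks G rk) {R : ℕ} (hR : ∀ v, rk v < R) {Q : Type}
    (S : Q → Set V) (pi : Q → V → V) (M : Set V → ℕ → (V → V) → Q → Prop)
    (step : ∀ U0 k own σ v T0 T1, M U0 k own σ → Lp G rk (S σ) (pi σ) U0 k own → v ∉ S σ → rk v = k →
      G.b v ≤ T0 → T0 ≤ G.t v → G.t v < T1 → (∀ u, T1 ≤ G.N → G.b u ≤ T1 → T1 ≤ G.t u → u ∈ U0) →
      (∀ u ∈ S σ, G.inn u → ¬ (T0 < G.b (own u) ∧ G.t (own u) < T1)) →
      ∃ σ', Pc G (S σ) (pi σ) (S σ') (pi σ') v ∧ M U0 k (own' (S σ) own v) σ')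
    (next : ∀ U0 k own σ, M U0 k own σ → Lp G rk (S σ) (pi σ) U0 k own → (∀ v, rk v ≤ k → v ∈ S σ) →
      M (S σ) (k + 1) own σ)
    (σ0 : Q) (hS0 : S σ0 = {G.bot, G.top}) (hch : Ch G (pi σ0)) (own0 : V → V) (h0 : M (S σ0) 0 own0 σ0) :
    ∃ σ own, M (S σ) R own σ ∧ (∀ v, v ∈ S σ) ∧ Lp G rk (S σ) (pi σ) (S σ) R own := by
  obtain ⟨σ, U0, own, h1, h2, rfl⟩ := loop hr S pi M step next σ0 hS0 hch own0 h0 R
  exact ⟨σ, own, h1, fun v => h2.low v (hR v), h2⟩

end Pool.Agent.W_a4f561_P34
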