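import Pool.Agent.W_a4f561_P34.DrawWI34

/-!
MP_a4f561_co, polylog pages: step (3), `draw_PS`: the piece goes on after the draw of a phase (helper34).
-/

set_option autoImplicit false

namespace Pool.Agent.W_a4f561_P34

open Pool.Agent.W_a4f561_h26 Pool.Agent.W_a4f561_P8 Pool.Agent.W_a4f561_h1 Pool.Agent.W_a4f561_P73
open Pool.Agent.W_a4f561_P45
open Pool.Agent.W_a4f561_P25 (Tc Ar Area ArD)

variable {V : Type} {G : Bars V} [Fintype V] [DecidableEq V] {rnk : V → ℕ} {N k0 : ℕ} {X : MS V} {S0 : Set V}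
  {r z e vl : V} {ω : V × Bool → Bool} {σ1 : St V} {δ : ℝ}

/-- (3) the piece goes on. -/
theorem draw_PS (hW : WI G rnk N k0 X z) (hP : PS G rnk X S0 r z) (hz : z ∉ X.σ.S)
    (hT : TD G X.σ (X.D (X.cell z)) (X.E G (X.cell z)) δ N ω z e)
    (hD : Dr1 G X.σ (X.D (X.cell z)) ω z e vl σ1) :
    PS G rnk (X.draw σ1 (Bp G X.σ (X.D (X.cell z)) ω z) {u | Area G σ1.pi z (G.t vl) u} z r) S0 r e := by
  classical
  set B := Bp G X.σ (X.D (X.cell z)) ω z with hBdef
  obtain ⟨X', hX'⟩ : ∃ X' : MS V, X' = X.draw σ1 B {u | Area G σ1.pi z (G.t vl) u} z r := ⟨_, rfl⟩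
  have hBD : ∀ v ∈ B, v ∈ X.D (X.cell z) := fun v hv => bp_D hv
  have hBS : ∀ v ∈ B, v ∉ X.σ.S := fun v hv => (hBD v hv).1
  have hlaw : Ch G (law G X.σ ω) :=
    (Pool.Agent.W_a4f561_P25.W.law_fin (Pool.Agent.W_a4f561_P25.W.wi_of hW.inv) ω).1
  have hch1 := hD.inv.ch
  have hS1 : ∀ v ∈ X.σ.S, v ∈ σ1.S := fun v hv => (hD.S v).2 (Or.inl hv)
  have hB1 : ∀ v ∈ B, v ∈ σ1.S := fun v hv => (hD.S v).2 (Or.inr hv)
  have hpi : ∀ v ∈ X.σ.S, σ1.pi v = X.σ.pi v := fun v hv => hD.piO v (Or.inl hv)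
  have hzi : G.inn z := ⟨fun h => hz (h ▸ hW.inv.bot_mem), fun h => hz (h ▸ hW.inv.top_mem)⟩
  have hzB : z ∈ B := z_bp hlaw ⟨hz, rfl⟩
  have hpd : ∀ v ∈ B, PD G B σ1.pi z v := fun v hv => bp_new hlaw hD hv
  have hvlB : vl ∈ B := hD.vlB
  have hvl1 : σ1.pi vl = e := by rw [hD.piB vl hvlB]; exact hD.vle
  have hlt : ∀ v ∈ B, G.t v < G.t e := by
    intro v hv
    by_contra hc
    exact hT.exi.2.1 (hv.2 e hT.exi.1 (not_lt.1 hc))
  have hze : G.t z < G.t e := hlt z hzB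
  -- the components of the new state
  have eσ : X'.σ = σ1 := by rw [hX']; rfl
  have ecell : ∀ v, X'.cell v = if Area G σ1.pi z (G.t vl) v then X.cell z else X.cell v := fun v => by
    rw [hX']; rfl
  have enl : X'.nl = X.nl := by rw [hX']; rfl
  have epar : X'.par = X.par := by rw [hX']; rfl
  have ee : X'.e = X.e := by rw [hX']; rfl
  have eph : X'.ph = X.ph := by rw [hX']; rfl
  have ecls : X'.cls = X.cls := by rw [hX']; rfl
  have enp : X'.np = X.np + 1 := by rw [hX']; rfl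
  have ephs : ∀ v, X'.phs v = if v ∈ B then X.np + 1 else X.phs v := fun v => by rw [hX']; rfl
  have elc : ∀ k, X'.lc k = if k = X.np + 1 then X.cell z else X.lc k := fun k => by rw [hX']; rfl
  have est : ∀ k, X'.st k = if k = X.np + 1 then z else X.st k := fun k => by rw [hX']; rfl
  have ert : ∀ k, X'.rt k = if k = X.np + 1 then r else X.rt k := fun k => by rw [hX']; rfl
  have phs_S : ∀ v ∈ X.σ.S, X'.phs v = X.phs v := fun v hv => by
    rw [ephs, if_neg (fun h => hBS v h hv)]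
  have phs_B : ∀ v ∈ B, X'.phs v = X.np + 1 := fun v hv => by rw [ephs, if_pos hv]
  have rt_o : ∀ k, k ≤ X.np → X'.rt k = X.rt k := fun k hk => by rw [ert, if_neg (by omega)]
  have lc_n : X'.lc (X.np + 1) = X.cell z := by rw [elc, if_pos rfl]
  have st_n : X'.st (X.np + 1) = z := by rw [est, if_pos rfl]
  have rt_n : X'.rt (X.np + 1) = r := by rw [ert, if_pos rfl]
  have hrtS : ∀ v ∈ X.σ.S, G.inn v → X'.rt (X'.phs v) = X.rt (X.phs v) := fun v hv hi => by
    rw [phs_S v hv, rt_o _ (hW.phs_rng v hv hi).2]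
  have hrz := orb_pre (π' := σ1.pi) hW.inv.ch hch1 hP.orb hzi (fun v hv ht => hpi v (hP.pc v hv ht).1)
  rw [← hX']
  refine ⟨?_, ?_, hP.bot0, hP.top0, hP.low0, ?_, hP.rS, ?_, ?_, ?_, ?_, ?_, ?_, ?_⟩
  · rw [eσ]
    exact fun v hv => hS1 v (hP.sub hv)
  · rw [eσ]
    intro v hv
    rw [hpi v (hP.sub hv)]
    exact hP.cl0 v hv
  · intro k h1 h2
    rw [enp] at h2
    rcases Nat.lt_or_ge X.np k with h3 | h3
    · have h4 : k = X.np + 1 := by omega
      rw [h4, rt_n]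
    · rw [rt_o k h3]
      exact hP.rts k h1 h3
  · rw [eσ, ← hvl1]
    exact orb_step (orb_trans hrz.1 (hpd vl hvlB).1)
  · intro v hv ht
    rw [eσ] at hv ⊢
    rcases Nat.lt_or_ge (G.t v) (G.t z) with h1 | h1
    · have h2 := hP.pc v (hrz.2 v hv h1.le) h1
      exact ⟨hS1 v h2.1, h2.2⟩
    · have h2 : Orb σ1.pi z v := orb_comp hch1 hrz.1 hv h1
      have h3 : G.t v ≤ G.t vl := by
        by_contra hc
        rw [not_le] at hc
        obtain ⟨k, hk⟩ := orb_comp hch1 (hpd vl hvlB).1 h2 hc.le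
        cases k with
        | zero =>
          rw [← hk] at hc
          exact lt_irrefl _ hc
        | succ k =>
          rw [Function.iterate_succ_apply, hvl1] at hk
          have := orb_t hch1 ⟨k, hk⟩
          omega
      have h4 := (hpd vl hvlB).2 v h2 h3
      exact ⟨hB1 v h4, fun h5 => hBS v h4 (hP.sub h5)⟩
  · intro v hv hv0
    rw [eσ] at hv ⊢
    rcases (hD.S v).1 hv with h | h
    · have hvi : G.inn v := ⟨fun e' => hv0 (e' ▸ hP.bot0), fun e' => hv0 (e' ▸ hP.top0)⟩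
      obtain ⟨h1, h2, h3⟩ := hP.cp v h hv0
      have h4 := orb_pre (π' := σ1.pi) hW.inv.ch hch1 h1 hvi
        (fun u hu ht => hpi u (hP.pc u hu (ht.trans h2)).1)
      exact ⟨h4.1, h2.trans hze, by rw [hrtS v h hvi]; exact h3⟩
    · exact ⟨orb_trans hrz.1 (hpd v h).1, hlt v h, by rw [phs_B v h, rt_n]⟩
  · intro v hv hi
    rw [hrtS v (hP.sub hv) hi]
    exact hP.rt0 v hv hi
  · intro i h1 h2 h3
    rw [enl] at h2
    rw [ee]
    rw [eph, rt_o _ (hW.ph_rng i h1 h2).2] at h3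
    exact (hP.le i h1 h2 h3).trans hze
  · intro h1 h2
    rw [eσ] at h2
    rw [enp, rt_n, epar, ecls, lc_n, st_n]
    refine ⟨by omega, rfl, ?_, hze.le⟩
    have hvi : G.inn vl := by
      have h4 := hBS vl hvlB
      exact ⟨fun h => h4 (h ▸ hW.inv.bot_mem), fun h => h4 (h ▸ hW.inv.top_mem)⟩
    have h3 : ¬ Area G σ1.pi z (G.t vl) e := by
      intro h4
      have h5 := Area.time hch1 (G.t_in vl hvi.1 hvi.2).le h4
      have h6 := hlt vl hvlB
      omega
    rw [ecell, if_neg h3]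
    have heS : e ∉ X.σ.S := fun h4 => h2 (hS1 e h4)
    obtain ⟨h4, h5⟩ := hT.eE
    rcases h4 with h4 | h4
    · exact Or.inl ⟨h4, fun h6 => h5 ⟨heS, h6.symm⟩⟩
    · rcases h4 with h4 | ⟨j, j1, j2, j3, j4⟩
      · exact absurd h4.1.1 heS
      · exact Or.inr ⟨j, j1, j2, j3, j4⟩
  · intro h1
    have h2 := orb_t hch1 hrz.1
    rw [← h1] at h2
    omega

end Pool.Agent.W_a4f561_P34
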