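import Pool.Agent.W_a4f561_P34.Rk34
import Pool.Agent.W_a4f561_h53.DrI53
import Pool.Agent.W_a4f561_h33.DrawL33
import Pool.Agent.W_a4f561_P66.Cust66
import Pool.Agent.W_a4f561_P2.I3

/-!
MP_a4f561_co, polylog pages: step (3), `draw_WI`: all fields of `WI` after the draw of a phase (helper34).
-/

set_option autoImplicit false

namespace Pool.Agent.W_a4f561_P34

open Pool.Agent.W_a4f561_h26 Pool.Agent.W_a4f561_P8 Pool.Agent.W_a4f561_h1 Pool.Agent.W_a4f561_P73
open Pool.Agent.W_a4f561_P45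
open Pool.Agent.W_a4f561_P25 (Tc Ar Area ArD)

variable {V : Type} {G : Bars V}

theorem z_bp {σ : St V} {D : Set V} {ω : V × Bool → Bool} {z : V} (hl : Ch G (law G σ ω)) (hz : z ∈ D) :
    z ∈ Bp G σ D ω z := by
  refine ⟨orb_refl _ _, fun v hv ht => ?_⟩
  have h1 : v = z := G.t_inj (le_antisymm ht (orb_t hl hv))
  rw [h1]
  exact hz

variable [Fintype V] [DecidableEq V] {rnk : V → ℕ} {N : ℕ} {X : MS V} {S0 : Set V} {r z e vl : V}
  {ω : V × Bool → Bool} {σ1 : St V} {δ : ℝ}

/-- (3) all fields of `WI` after the draw. -/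
theorem draw_WI (hW : WI G rnk N 0 X z) (hP : PS G rnk X S0 r z) (hz : z ∉ X.σ.S)
    (hT : TD G X.σ (X.D (X.cell z)) (X.E G (X.cell z)) δ N ω z e)
    (hD : Dr1 G X.σ (X.D (X.cell z)) ω z e vl σ1) :
    WI G rnk N (X.np + 1)
      (X.draw σ1 (Bp G X.σ (X.D (X.cell z)) ω z) {u | Area G σ1.pi z (G.t vl) u} z r) e := by
  classical
  set B := Bp G X.σ (X.D (X.cell z)) ω z with hBdef
  obtain ⟨X', hX'⟩ : ∃ X' : MS V, X' = X.draw σ1 B {u | Area G σ1.pi z (G.t vl) u} z r := ⟨_, rfl⟩
  have hrk := draw_rk hW hP hz hT hD X' hX'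
  have hBD : ∀ v ∈ B, v ∈ X.D (X.cell z) := fun v hv => bp_D hv
  have hBS : ∀ v ∈ B, v ∉ X.σ.S := fun v hv => (hBD v hv).1
  have hlaw : Ch G (law G X.σ ω) :=
    (Pool.Agent.W_a4f561_P25.W.law_fin (Pool.Agent.W_a4f561_P25.W.wi_of hW.inv) ω).1
  have hS1 : ∀ v ∈ X.σ.S, v ∈ σ1.S := fun v hv => (hD.S v).2 (Or.inl hv)
  have hB1 : ∀ v ∈ B, v ∈ σ1.S := fun v hv => (hD.S v).2 (Or.inr hv)
  have hpi : ∀ v ∈ X.σ.S, σ1.pi v = X.σ.pi v := fun v hv => hD.piO v (Or.inl hv)
  have hzi : G.inn z := ⟨fun h => hz (h ▸ hW.inv.bot_mem), fun h => hz (h ▸ hW.inv.top_mem)⟩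
  have hzB : z ∈ B := z_bp hlaw ⟨hz, rfl⟩
  -- the components of the new state
  have eσ : X'.σ = σ1 := by rw [hX']; rfl
  have ecell : ∀ v, X'.cell v = if Area G σ1.pi z (G.t vl) v then X.cell z else X.cell v := fun v => by
    rw [hX']; rfl
  have enl : X'.nl = X.nl := by rw [hX']; rfl
  have epar : X'.par = X.par := by rw [hX']; rfl
  have es : X'.s = X.s := by rw [hX']; rfl
  have ee : X'.e = X.e := by rw [hX']; rfl
  have erk : X'.rk = X.rk := by rw [hX']; rfl
  have eph : X'.ph = X.ph := by rw [hX']; rfl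
  have esd : X'.sd = X.sd := by rw [hX']; rfl
  have ecls : X'.cls = X.cls := by rw [hX']; rfl
  have enp : X'.np = X.np + 1 := by rw [hX']; rfl
  have ephs : ∀ v, X'.phs v = if v ∈ B then X.np + 1 else X.phs v := fun v => by rw [hX']; rfl
  have elc : ∀ k, X'.lc k = if k = X.np + 1 then X.cell z else X.lc k := fun k => by rw [hX']; rfl
  have est : ∀ k, X'.st k = if k = X.np + 1 then z else X.st k := fun k => by rw [hX']; rfl
  have ert : ∀ k, X'.rt k = if k = X.np + 1 then r else X.rt k := fun k => by rw [hX']; rfl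
  have eev : X'.ev = X.ev := by rw [hX']; rfl
  have phs_S : ∀ v ∈ X.σ.S, X'.phs v = X.phs v := fun v hv => by
    rw [ephs, if_neg (fun h => hBS v h hv)]
  have phs_B : ∀ v ∈ B, X'.phs v = X.np + 1 := fun v hv => by rw [ephs, if_pos hv]
  have lc_o : ∀ k, k ≤ X.np → X'.lc k = X.lc k := fun k hk => by rw [elc, if_neg (by omega)]
  have st_o : ∀ k, k ≤ X.np → X'.st k = X.st k := fun k hk => by rw [est, if_neg (by omega)]
  have rt_o : ∀ k, k ≤ X.np → X'.rt k = X.rt k := fun k hk => by rw [ert, if_neg (by omega)]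
  have lc_n : X'.lc (X.np + 1) = X.cell z := by rw [elc, if_pos rfl]
  have st_n : X'.st (X.np + 1) = z := by rw [est, if_pos rfl]
  have rt_n : X'.rt (X.np + 1) = r := by rw [ert, if_pos rfl]
  have P_o : ∀ k, k ≤ X.np → X'.P G k = X.P G k := by
    intro k hk
    ext v
    show (v ∈ X'.σ.S ∧ G.inn v ∧ X'.phs v = k) ↔ (v ∈ X.σ.S ∧ G.inn v ∧ X.phs v = k)
    rw [eσ]
    constructor
    · rintro ⟨h1, h2, h3⟩
      rcases (hD.S v).1 h1 with h | h
      · exact ⟨h, h2, by rw [← phs_S v h]; exact h3⟩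
      · rw [phs_B v h] at h3
        omega
    · rintro ⟨h1, h2, h3⟩
      exact ⟨hS1 v h1, h2, by rw [phs_S v h1]; exact h3⟩
  have cell_S : ∀ v ∈ σ1.S, X'.cell v = X.cell v := fun v hv => by
    rw [ecell, if_neg (hD.noS v hv)]
  have hrS : r ∈ σ1.S ∧ G.inn r := by
    refine ⟨?_, fun h => hP.rS (h ▸ hP.bot0), fun h => hP.rS (h ▸ hP.top0)⟩
    by_cases h : r = z
    · rw [h]
      exact hB1 z hzB
    · exact hS1 r (hP.pc r (orb_refl _ _)
        (lt_of_le_of_ne (orb_t hW.inv.ch hP.orb) fun h' => h (G.t_inj h'))).1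
  have hFin : ∀ π, Fin' G σ1 π → Fin' G X.σ π := fun π hπ => ⟨hπ.1, fun v hv => by
    rw [hπ.2 v (hv.imp (fun h => hS1 v h) (fun h => hD.Dec h)), hD.piO v hv]⟩
  rw [← hX']
  exact
  { inv := by rw [eσ]; exact hD.inv
    lab := by rw [epar, ecls, es, ee, erk]; exact hW.lab
    par_lt := by rw [epar]; exact hW.par_lt
    s0 := by rw [es]; exact hW.s0
    rk0 := by rw [erk]; exact hW.rk0
    dflt := by rw [enl, epar, eph, ee]; exact hW.dflt
    nl_pos := by rw [enl]; exact hW.nl_pos
    cell_lt := fun v => by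
      rw [enl, ecell]
      split_ifs
      · exact hW.cell_lt z
      · exact hW.cell_lt v
    ph_rng := fun i h1 h2 => by
      rw [enl] at h2
      rw [eph, enp]
      have := hW.ph_rng i h1 h2
      omega
    lab_par := fun i h1 h2 => by
      rw [enl] at h2
      rw [epar, eph, lc_o _ (hW.ph_rng i h1 h2).2]
      exact hW.lab_par i h1 h2
    lab_rk := fun i h1 h2 => by
      rw [enl] at h2
      rw [erk, eph, rt_o _ (hW.ph_rng i h1 h2).2]
      exact hW.lab_rk i h1 h2
    lab_e := fun i h1 h2 => by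
      rw [enl] at h2
      rw [eph, ee, P_o _ (hW.ph_rng i h1 h2).2]
      exact hW.lab_e i h1 h2
    lc_lt := fun k h1 h2 => by
      rw [enp] at h2
      rw [enl]
      rcases Nat.lt_or_ge X.np k with h3 | h3
      · have h4 : k = X.np + 1 := by omega
        rw [h4, lc_n]
        exact hW.cell_lt z
      · rw [lc_o k h3]
        exact hW.lc_lt k h1 h3
    phs_rng := fun v hv hi => by
      rw [eσ] at hv
      rw [enp]
      rcases (hD.S v).1 hv with h | h
      · rw [phs_S v h]
        have := hW.phs_rng v h hi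
        omega
      · rw [phs_B v h]
        omega
    cellS := fun v hv hi => by
      rw [eσ] at hv
      rw [cell_S v hv]
      rcases (hD.S v).1 hv with h | h
      · rw [phs_S v h, lc_o _ (hW.phs_rng v h hi).2]
        exact hW.cellS v h hi
      · rw [phs_B v h, lc_n]
        exact (hBD v h).2
    I1 := fun v hv => by
      rw [eσ] at hv
      rw [erk, eσ, hX']
      exact Pool.Agent.W_a4f561_DrI53.draw_I1 hW hz hT hD v hv
    I2 := by
      rw [eσ, hX']
      exact Pool.Agent.W_a4f561_P66.draw_I2 hW hT.exi hT.eE hD (fun u hu => hD.noS u hu)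
    I3 := by
      rw [hX']
      exact Pool.Agent.W_a4f561_P2.draw_I3 hW hD _ (fun u hu => hu) _
    lens := by
      rw [eσ, es, hX']
      exact Pool.Agent.W_a4f561_h33.draw_lens hW.inv hW.lens hT.exi hD
    evd := fun k b kd v w h => by
      rw [eev] at h
      obtain ⟨h1, h2, h3, h4, h5, h6, h7⟩ := hW.evd k b kd v w h
      rw [enp, P_o k h2, eσ, hpi v h3.1]
      exact ⟨h1, by omega, h3, h4, h5, h6, h7⟩
    cust := fun k b kd v w h y hy => by
      rw [eev] at h
      rw [hX']
      exact Pool.Agent.W_a4f561_P66.draw_cust hW hT.exi hD k b kd v w h y hy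
    own := fun k h1 h2 h3 π hπ h4 b => by
      rw [enp] at h2
      have h5 : k ≤ X.np := by omega
      rw [eσ] at hπ
      rw [P_o k h5]
      refine hW.own k h1 h5 (by omega) π (hFin π hπ) (fun b' kd v w h6 y hy => ?_) b
      have h7 := h4 b' kd v w (by rw [eev]; exact h6) y hy
      rw [P_o k h5] at h7
      exact h7
    root := by rw [eσ]; exact hrk.1
    rtS := fun k h1 h2 => by
      rw [enp] at h2
      rw [eσ]
      rcases Nat.lt_or_ge X.np k with h3 | h3
      · have h4 : k = X.np + 1 := by omega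
        rw [h4, rt_n, st_n]
        refine ⟨hrS.1, hrS.2, ?_⟩
        show z ∈ X'.σ.S ∧ G.inn z ∧ X'.phs z = X.np + 1
        rw [eσ]
        exact ⟨hB1 z hzB, hzi, phs_B z hzB⟩
      · rw [rt_o k h3, st_o k h3, P_o k h3]
        have h4 := hW.rtS k h1 h3
        exact ⟨hS1 _ h4.1, h4.2⟩
    win := fun k h1 h2 h3 => by
      rw [enp] at h2
      rw [es, ee]
      rcases Nat.lt_or_ge X.np k with h4 | h4
      · have h5 : k = X.np + 1 := by omega
        rw [h5, lc_n] at h3 ⊢
        rw [st_n]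
        exact hW.I3 (X.cell z) h3 z (anc_refl _ _)
      · rw [lc_o k h4] at h3 ⊢
        rw [st_o k h4]
        exact hW.win k h1 h4 h3
    mv := fun k h1 h2 h3 => by
      rw [enp] at h2
      rw [epar, ecls]
      rcases Nat.lt_or_ge X.np (k + 1) with h4 | h4
      · have h5 : k = X.np := by omega
        rw [h5, rt_n, rt_o _ le_rfl] at h3
        rw [h5, lc_n, st_n, lc_o _ le_rfl, st_o _ le_rfl]
        by_cases h6 : z = r
        · exact absurd h3 (hP.nr h6 _ (by omega) le_rfl)
        · exact (hP.nx h6 hz).2.2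
      · rw [rt_o k (by omega), rt_o (k + 1) h4] at h3
        rw [lc_o k (by omega), lc_o (k + 1) h4, st_o k (by omega), st_o (k + 1) h4]
        exact hW.mv k h1 h4 h3
    cont := fun k l m h1 h2 h3 h4 h5 => by
      rw [enp] at h4
      rcases Nat.lt_or_ge X.np m with h6 | h6
      · have h7 : m = X.np + 1 := by omega
        rw [h7, rt_n] at h5
        rcases Nat.lt_or_ge X.np l with h8 | h8
        · have h9 : l = X.np + 1 := by omega
          rw [h9, rt_n, h5]
        · have h9 := h5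
          rw [rt_o k (by omega)] at h9
          rw [rt_o l h8, rt_o k (by omega)]
          by_cases h10 : z = r
          · exact absurd h9 (hP.nr h10 _ h1 (by omega))
          · refine hW.cont k l X.np h1 h2 h8 le_rfl ?_
            rw [h9]
            exact (hP.nx h10 hz).2.1.symm
      · rw [rt_o k (by omega), rt_o m h6] at h5
        rw [rt_o l (by omega), rt_o k (by omega)]
        exact hW.cont k l m h1 h2 h3 h6 h5
    low := by rw [eσ]; exact hrk.2.1
    wlk := fun v hv i hi hvi => by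
      rw [eσ] at hv
      rw [eσ, eph]
      exact hrk.2.2 v hv i hi hvi }

end Pool.Agent.W_a4f561_P34
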