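import Pool.Agent.W_a4f561_P25.Dr1

/-!
MP_a4f561_co, polylog pages: step (3), the fields `root`, `low`, `wlk` after the draw of a phase (`draw_rk` of helper1's
skeleton) (helper34).
-/

set_option autoImplicit false

namespace Pool.Agent.W_a4f561_P34

open Pool.Agent.W_a4f561_h26 Pool.Agent.W_a4f561_P8 Pool.Agent.W_a4f561_h1 Pool.Agent.W_a4f561_P73
open Pool.Agent.W_a4f561_P45
open Pool.Agent.W_a4f561_P25 (Tc Ar Area ArD)

variable {V : Type} {G : Bars V}

theorem t_step {π : V → V} (hπ : Ch G π) (v : V) : G.t v ≤ G.t (π v) := orb_t hπ ⟨1, rfl⟩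

/-- Two choice functions which agree on `D` have the same paths in `D`. -/
theorem pd_congr34 {π π' : V → V} (hπ : Ch G π) (hπ' : Ch G π') {D : Set V} {x w : V} (h : PD G D π x w)
    (he : ∀ v ∈ D, π' v = π v) : PD G D π' x w := by
  obtain ⟨⟨k, hk⟩, hD⟩ := h
  have ht : ∀ j, j ≤ k → G.t (π^[j] x) ≤ G.t w := by
    intro j hj
    refine orb_t hπ ⟨k - j, ?_⟩
    rw [← Function.iterate_add_apply, show k - j + j = k by omega, hk]
  have h1 : ∀ j, j ≤ k → π'^[j] x = π^[j] x := by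
    intro j
    induction j with
    | zero => exact fun _ => rfl
    | succ j ih =>
      intro hj
      rw [Function.iterate_succ_apply', ih (by omega), Function.iterate_succ_apply' π j x]
      exact he _ (hD _ ⟨j, rfl⟩ (ht j (by omega)))
  have h2 : ∀ j, G.t (π'^[j] x) ≤ G.t w → π'^[j] x = π^[j] x := by
    intro j
    induction j with
    | zero => exact fun _ => rfl
    | succ j ih =>
      intro hj
      rw [Function.iterate_succ_apply'] at hj ⊢
      have h3 := ih ((t_step hπ' _).trans hj)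
      have h4 := (t_step hπ' (π'^[j] x)).trans hj
      rw [h3, Function.iterate_succ_apply' π j x]
      exact he _ (hD _ ⟨j, rfl⟩ (by rw [← h3]; exact h4))
  refine ⟨⟨k, by rw [h1 k le_rfl, hk]⟩, ?_⟩
  rintro v ⟨j, rfl⟩ hv
  rw [h2 j hv]
  exact hD _ ⟨j, rfl⟩ (by rw [← h2 j hv]; exact hv)

/-- Two choice functions which agree on the route of `r` before `z`. -/
theorem orb_pre {π π' : V → V} (hπ : Ch G π) (hπ' : Ch G π') {r z : V} (h : Orb π r z) (hz : G.inn z)
    (he : ∀ v, Orb π r v → G.t v < G.t z → π' v = π v) :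
    Orb π' r z ∧ ∀ u, Orb π' r u → G.t u ≤ G.t z → Orb π r u := by
  classical
  have hex : ∃ k, π^[k] r = z := h
  set k := Nat.find hex with hkdef
  have hk : π^[k] r = z := Nat.find_spec hex
  have ht : ∀ j, j < k → G.t (π^[j] r) < G.t z := by
    intro j hj
    refine lt_of_le_of_ne (orb_t hπ ⟨k - j, ?_⟩) fun e => Nat.find_min hex hj (G.t_inj e)
    rw [← Function.iterate_add_apply, show k - j + j = k by omega, hk]
  have h1 : ∀ j, j ≤ k → π'^[j] r = π^[j] r := by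
    intro j
    induction j with
    | zero => exact fun _ => rfl
    | succ j ih =>
      intro hj
      rw [Function.iterate_succ_apply', ih (by omega), Function.iterate_succ_apply' π j r]
      exact he _ ⟨j, rfl⟩ (ht j (by omega))
  have h2 : ∀ j, G.t (π'^[j] r) ≤ G.t z → π'^[j] r = π^[j] r := by
    intro j
    induction j with
    | zero => exact fun _ => rfl
    | succ j ih =>
      intro hj
      rw [Function.iterate_succ_apply'] at hj ⊢
      have h3 := ih ((t_step hπ' _).trans hj)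
      have h4 := (t_step hπ' (π'^[j] r)).trans hj
      have h5 : G.t (π'^[j] r) < G.t z := by
        refine lt_of_le_of_ne h4 fun e => ?_
        have h6 : π'^[j] r = z := G.t_inj e
        rw [h6] at hj
        have h7 : G.t z < G.t (π' z) := by
          rcases hπ'.2.2 z hz with h8 | h8
          · rw [h8]; exact t_lo G hz
          · rw [h8]; exact t_up G hz
        omega
      rw [h3, Function.iterate_succ_apply' π j r]
      exact he _ ⟨j, rfl⟩ (by rw [← h3]; exact h5)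
  refine ⟨⟨k, by rw [h1 k le_rfl, hk]⟩, ?_⟩
  rintro u ⟨j, rfl⟩ hu
  exact ⟨j, (h2 j hu).symm⟩

theorem orb_in34 {π π' : V → V} {S : Set V} (hS : ∀ v ∈ S, π v ∈ S) (he : ∀ v ∈ S, π' v = π v) {u w : V}
    (hu : u ∈ S) (h : Orb π u w) : Orb π' u w ∧ w ∈ S := by
  obtain ⟨k, rfl⟩ := h
  have key : ∀ j, π'^[j] u = π^[j] u ∧ π^[j] u ∈ S := by
    intro j
    induction j with
    | zero => exact ⟨rfl, hu⟩
    | succ j ih =>
      rw [Function.iterate_succ_apply', Function.iterate_succ_apply', ih.1]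
      exact ⟨he _ ih.2, hS _ ih.2⟩
  exact ⟨⟨k, (key k).1⟩, (key k).2⟩

theorem low_eq34 {rnk : V → ℕ} {π π' : V → V} {S0 : Set V} (hcl : ∀ v ∈ S0, π v ∈ S0) (he : ∀ v ∈ S0, π' v = π v)
    {k : ℕ} (hlow : ∀ u, rnk u < k → u ∈ S0) : Low G rnk π' k = Low G rnk π k := by
  ext w
  constructor
  · rintro (h | h | ⟨u, h1, h2⟩)
    · exact Or.inl h
    · exact Or.inr (Or.inl h)
    · exact Or.inr (Or.inr ⟨u, h1, (orb_in34 (π := π') (π' := π) (fun v hv => by rw [he v hv]; exact hcl v hv)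
        (fun v hv => (he v hv).symm) (hlow u h1) h2).1⟩)
  · rintro (h | h | ⟨u, h1, h2⟩)
    · exact Or.inl h
    · exact Or.inr (Or.inl h)
    · exact Or.inr (Or.inr ⟨u, h1, (orb_in34 hcl he (hlow u h1) h2).1⟩)

theorem low_sub34 {rnk : V → ℕ} {π : V → V} {S0 : Set V} (hcl : ∀ v ∈ S0, π v ∈ S0) (hb : G.bot ∈ S0) (ht : G.top ∈ S0)
    {k : ℕ} (hlow : ∀ u, rnk u < k → u ∈ S0) {w : V} (h : w ∈ Low G rnk π k) : w ∈ S0 := by
  rcases h with h | h | ⟨u, h1, h2⟩
  · rw [h]; exact hb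
  · rw [h]; exact ht
  · exact (orb_in34 hcl (fun _ _ => rfl) (hlow u h1) h2).2

/-- The all-lower choice function. -/
noncomputable def dn (G : Bars V) (v : V) : V := by
  classical exact if v = G.bot then G.bot else if v = G.top then G.top else G.lo v

theorem dn_ch (G : Bars V) : Ch G (dn G) := by
  refine ⟨?_, ?_, fun v hv => Or.inl ?_⟩
  · unfold dn; rw [if_pos rfl]
  · unfold dn; rw [if_neg G.ne.symm, if_pos rfl]
  · unfold dn; rw [if_neg hv.1, if_neg hv.2]

theorem dn_inn {v : V} (hv : G.inn v) : dn G v = G.lo v := by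
  unfold dn; rw [if_neg hv.1, if_neg hv.2]

/-- A vertex of an area goes by a walk in the area to the phase. -/
theorem ar_walk {π : V → V} (hπ : Ch G π) {z : V} {tl : ℕ} (hN : tl ≤ G.N) {y : V} {a c : ℕ} {U : Set V}
    (hA : ∀ u, Ar G π z tl y a c u → u ∉ U) (hB : ∀ u, Orb π z u → G.t u ≤ G.t (host G π z c) → u ∉ U) {v : V}
    (h : Ar G π z tl y a c v) : ∃ u, Orb π z u ∧ G.t u ≤ G.t (host G π z c) ∧ Walk G U v u := by
  obtain ⟨n, hn⟩ : ∃ n, c - G.t v = n := ⟨_, rfl⟩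
  induction n using Nat.strong_induction_on generalizing v with
  | _ n ih =>
    obtain ⟨hac, k1, k2, k3⟩ := h.p0 hπ hN
    have hcN : c ≤ G.N := h.2.2.1.2.1.trans hN
    have hin : G.inn v := by
      constructor
      · rintro rfl; have := G.t_bot; omega
      · rintro rfl; have := G.t_top; omega
    have hlt : G.r v < G.r y := (k3 _ ⟨G.bt v, le_rfl⟩).2
    have hs : dn G v ≠ y := by
      rw [dn_inn hin]
      intro e
      have := r_lo G hin
      rw [e] at this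
      omega
    have hst : ∀ {U' : Set V}, dn G v ∉ U' → WStep G U' v (dn G v) := fun h' => ⟨hin, Or.inl (dn_inn hin), h'⟩
    have hts : G.t v < G.t (dn G v) := by
      rw [dn_inn hin]; exact t_lo G hin
    rcases h.fwd hπ hN (dn_ch G) hs with h1 | h1
    · obtain ⟨_, _, m2, _⟩ := h1.p0 hπ hN
      obtain ⟨u, n1, n2, n3⟩ := ih (c - G.t (dn G v)) (by omega) h1 rfl
      exact ⟨u, n1, n2, Relation.ReflTransGen.head (hst (hA _ h1)) n3⟩
    · exact ⟨_, h1.1, h1.2, Relation.ReflTransGen.single (hst (hB _ h1.1 h1.2))⟩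

theorem area_walk {π : V → V} (hπ : Ch G π) {z vl : V} (hN : G.t vl ≤ G.N) (hvl : Orb π z vl) {U : Set V}
    (hA : ∀ u, Area G π z (G.t vl) u → u ∉ U) (hB : ∀ u, Orb π z u → G.t u ≤ G.t vl → u ∉ U) {v : V}
    (h : Area G π z (G.t vl) v) : ∃ u, Orb π z u ∧ G.t u ≤ G.t vl ∧ Walk G U v u := by
  have hle : ∀ c, c ≤ G.t vl → G.t (host G π z c) ≤ G.t vl := fun c hc =>
    Pool.Agent.W_a4f561_P25.W.host_first hπ hvl hc (hc.trans hN)
  rcases h with ⟨y, a, c, h⟩ | ⟨y, a, c, h⟩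
  · have hc := hle c h.2.2.1.2.1
    obtain ⟨u, n1, n2, n3⟩ := ar_walk hπ hN (fun u hu => hA u (Or.inl ⟨y, a, c, hu⟩))
      (fun u h1 h2 => hB u h1 (h2.trans hc)) h
    exact ⟨u, n1, n2.trans hc, n3⟩
  · have hc := hle c h.2.2.1.2.1
    obtain ⟨u, n1, n2, n3⟩ := ar_walk (G := G.mir) (ch_mir.2 hπ) hN (fun u hu => hA u (Or.inr ⟨y, a, c, hu⟩))
      (fun u h1 h2 => hB u h1 (le_trans h2 hc)) h
    have n4 := walk_mir n3
    rw [mir_mir] at n4
    exact ⟨u, n1, le_trans n2 hc, n4⟩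

theorem bp_pd {σ : St V} {D : Set V} {ω : V × Bool → Bool} {z v : V} (h : v ∈ Bp G σ D ω z) :
    PD G (Bp G σ D ω z) (law G σ ω) z v :=
  ⟨h.1, fun _ hu ht => ⟨hu, fun w hw ht' => h.2 w hw (ht'.trans ht)⟩⟩

theorem bp_D {σ : St V} {D : Set V} {ω : V × Bool → Bool} {z v : V} (h : v ∈ Bp G σ D ω z) : v ∈ D :=
  h.2 v h.1 le_rfl

section pr

variable [Fintype V] [DecidableEq V] {rnk : V → ℕ} {N k0 : ℕ}

omit [Fintype V] [DecidableEq V] in
/-- The vertices of the phase: the route of `z` in the new state. -/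
theorem bp_new {σ σ1 : St V} {D : Set V} {ω : V × Bool → Bool} {z e vl : V} (hl : Ch G (law G σ ω))
    (hD : Dr1 G σ D ω z e vl σ1) {v : V} (h : v ∈ Bp G σ D ω z) : PD G (Bp G σ D ω z) σ1.pi z v :=
  pd_congr34 hl hD.inv.ch (bp_pd h) (fun u hu => hD.piB u hu)

variable {X : MS V} {S0 : Set V} {r z e vl : V} {ω : V × Bool → Bool} {σ1 : St V} {δ : ℝ}

omit [Fintype V] [DecidableEq V] in
theorem draw_rt_B {B A : Set V} {v : V} (hv : v ∈ B) :
    (X.draw σ1 B A z r).rt ((X.draw σ1 B A z r).phs v) = r := by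
  classical
  show (if (if v ∈ B then X.np + 1 else X.phs v) = X.np + 1 then r else _) = r
  rw [if_pos hv, if_pos rfl]

omit [Fintype V] [DecidableEq V] in
theorem draw_rt_S {B A : Set V} {v : V} (hv : v ∉ B) (h : X.phs v ≤ X.np) :
    (X.draw σ1 B A z r).rt ((X.draw σ1 B A z r).phs v) = X.rt (X.phs v) := by
  classical
  show (if (if v ∈ B then X.np + 1 else X.phs v) = X.np + 1 then r else
    X.rt (if v ∈ B then X.np + 1 else X.phs v)) = X.rt (X.phs v)
  rw [if_neg hv, if_neg (by omega)]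

omit [Fintype V] [DecidableEq V] in
theorem draw_rt_k {B A : Set V} {k : ℕ} (h : k ≤ X.np) : (X.draw σ1 B A z r).rt k = X.rt k := by
  show (if k = X.np + 1 then r else X.rt k) = X.rt k
  rw [if_neg (by omega)]

/-- (3 WALK, LOW, ROOT) -/
theorem draw_rk (hW : WI G rnk N k0 X z) (hP : PS G rnk X S0 r z) (hz : z ∉ X.σ.S)
    (hT : TD G X.σ (X.D (X.cell z)) (X.E G (X.cell z)) δ N ω z e)
    (hD : Dr1 G X.σ (X.D (X.cell z)) ω z e vl σ1) (X' : MS V)
    (hX' : X' = X.draw σ1 (Bp G X.σ (X.D (X.cell z)) ω z) {u | Area G σ1.pi z (G.t vl) u} z r) :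
    (∀ v ∈ σ1.S, G.inn v → PD G σ1.S σ1.pi (X'.rt (X'.phs v)) v) ∧
    (∀ v ∈ σ1.S, G.inn v → v ∉ Low G rnk σ1.pi (rnk (X'.rt (X'.phs v)))) ∧
    (∀ v, v ∉ σ1.S → ∀ i, 1 ≤ i → v ∈ X'.C i → ∃ w ∈ σ1.S, G.inn w ∧
      X'.rt (X'.phs w) = X'.rt (X.ph i) ∧ Walk G (Low G rnk σ1.pi (rnk (X'.rt (X.ph i)))) v w) := by
  classical
  set B := Bp G X.σ (X.D (X.cell z)) ω z with hBdef
  have hBD : ∀ v ∈ B, v ∈ X.D (X.cell z) := fun v hv => bp_D hv
  have hBS : ∀ v ∈ B, v ∉ X.σ.S := fun v hv => (hBD v hv).1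
  have hlaw : Ch G (law G X.σ ω) :=
    (Pool.Agent.W_a4f561_P25.W.law_fin (Pool.Agent.W_a4f561_P25.W.wi_of hW.inv) ω).1
  have hch1 := hD.inv.ch
  have hS1 : ∀ v ∈ X.σ.S, v ∈ σ1.S := fun v hv => (hD.S v).2 (Or.inl hv)
  have hB1 : ∀ v ∈ B, v ∈ σ1.S := fun v hv => (hD.S v).2 (Or.inr hv)
  have hpi : ∀ v ∈ X.σ.S, σ1.pi v = X.σ.pi v := fun v hv => hD.piO v (Or.inl hv)
  have hzi : G.inn z := ⟨fun h => hz (h ▸ hW.inv.bot_mem), fun h => hz (h ▸ hW.inv.top_mem)⟩
  have hrtB : ∀ v ∈ B, X'.rt (X'.phs v) = r := fun v hv => by rw [hX']; exact draw_rt_B hv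
  have hrtS : ∀ v ∈ X.σ.S, G.inn v → X'.rt (X'.phs v) = X.rt (X.phs v) := fun v hv hi => by
    rw [hX']; exact draw_rt_S (fun h => hBS v h hv) (hW.phs_rng v hv hi).2
  have hrtk : ∀ k, k ≤ X.np → X'.rt k = X.rt k := fun k hk => by rw [hX']; exact draw_rt_k hk
  -- `Low` is the same before and after
  have hpi0 : ∀ v ∈ S0, σ1.pi v = X.σ.pi v := fun v hv => hpi v (hP.sub hv)
  have hLow : ∀ k, k ≤ rnk r → Low G rnk σ1.pi k = Low G rnk X.σ.pi k := fun k hk =>
    low_eq34 hP.cl0 hpi0 (fun u hu => hP.low0 u (lt_of_lt_of_le hu hk))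
  have hLsub : ∀ k, k ≤ rnk r → ∀ w ∈ Low G rnk X.σ.pi k, w ∈ S0 := fun k hk w hw =>
    low_sub34 hP.cl0 hP.bot0 hP.top0 (fun u hu => hP.low0 u (lt_of_lt_of_le hu hk)) hw
  -- the route of `r`
  have hrz := orb_pre (π' := σ1.pi) hW.inv.ch hch1 hP.orb hzi (fun v hv ht => hpi v (hP.pc v hv ht).1)
  have hpd : ∀ v ∈ B, PD G B σ1.pi z v := fun v hv => bp_new hlaw hD hv
  refine ⟨fun v hv hi => ?_, fun v hv hi => ?_, fun v hv i hi hvi => ?_⟩
  · rcases (hD.S v).1 hv with h | h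
    · rw [hrtS v h hi]
      have h1 := pd_congr34 hW.inv.ch hch1 (hW.root v h hi) hpi
      exact ⟨h1.1, fun u hu ht => hS1 u (h1.2 u hu ht)⟩
    · rw [hrtB v h]
      refine ⟨orb_trans hrz.1 (hpd v h).1, fun u hu ht => ?_⟩
      rcases Nat.lt_or_ge (G.t u) (G.t z) with h1 | h1
      · exact hS1 u (hP.pc u (hrz.2 u hu h1.le) h1).1
      · exact hB1 u ((hpd v h).2 u (orb_comp hch1 hrz.1 hu h1) ht)
  · rcases (hD.S v).1 hv with h | h
    · have h2 := hW.phs_rng v h hi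
      rw [hrtS v h hi, hLow _ (hP.rts _ h2.1 h2.2)]
      exact hW.low v h hi
    · rw [hrtB v h, hLow _ le_rfl]
      exact fun h1 => hBS v h (hP.sub (hLsub _ le_rfl v h1))
  · -- walks
    have hin : i < X.nl := by
      by_contra hc
      have h1 : X'.cell v < X.nl := by
        rw [hX']
        show (if v ∈ {u | Area G σ1.pi z (G.t vl) u} then X.cell z else X.cell v) < X.nl
        split_ifs
        · exact hW.cell_lt z
        · exact hW.cell_lt v
      have h2 : Anc X.par i (X'.cell v) := by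
        have h3 : Anc X'.par i (X'.cell v) := hvi
        rw [hX'] at h3 ⊢
        exact h3
      have h4 := anc_le hW.lab.par0 hW.par_lt h2
      omega
    have hph := hW.ph_rng i hi hin
    rw [hrtk _ hph.2]
    have hle := hP.rts _ hph.1 hph.2
    rw [hLow _ hle]
    have hvS : v ∉ X.σ.S := fun h => hv (hS1 v h)
    by_cases hA : Area G σ1.pi z (G.t vl) v
    · have hvi' : Anc X.par i (X.cell z) := by
        have h3 : Anc X'.par i (X'.cell v) := hvi
        rw [hX'] at h3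
        have h4 : (X.draw σ1 B {u | Area G σ1.pi z (G.t vl) u} z r).cell v = X.cell z := if_pos hA
        rw [h4] at h3
        exact h3
      have hvlN : G.t vl ≤ G.N := by
        have h1 : vl ∉ X.σ.S := hBS vl hD.vlB
        exact (G.t_in vl (fun h => h1 (h ▸ hW.inv.bot_mem)) (fun h => h1 (h ▸ hW.inv.top_mem))).le
      have hvl := hpd vl hD.vlB
      obtain ⟨u, n1, n2, n3⟩ := area_walk hch1 hvlN hvl.1 (U := Low G rnk X.σ.pi (rnk (X.rt (X.ph i))))
        (fun u hu h1 => hD.noS u (hS1 u (hP.sub (hLsub _ hle u h1))) hu)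
        (fun u h1 h2 h3 => hBS u (hvl.2 u h1 h2) (hP.sub (hLsub _ hle u h3))) hA
      have huB := hvl.2 u n1 n2
      obtain ⟨w, w1, w2, w3, w4⟩ := hW.wlk u (hBS u huB) i hi (by
        show Anc X.par i (X.cell u)
        rw [(hBD u huB).2]
        exact hvi')
      exact ⟨w, hS1 w w1, w2, by rw [hrtS w w1 w2]; exact w3, n3.trans w4⟩
    · have hvi' : Anc X.par i (X.cell v) := by
        have h3 : Anc X'.par i (X'.cell v) := hvi
        rw [hX'] at h3
        have h4 : (X.draw σ1 B {u | Area G σ1.pi z (G.t vl) u} z r).cell v = X.cell v := if_neg hA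
        rw [h4] at h3
        exact h3
      obtain ⟨w, w1, w2, w3, w4⟩ := hW.wlk v hvS i hi hvi'
      exact ⟨w, hS1 w w1, w2, by rw [hrtS w w1 w2]; exact w3, w4⟩

end pr

end Pool.Agent.W_a4f561_P34
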