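import Pool.Agent.W_a4f561_P34.Loop34
import Pool.Agent.W_a4f561_h1.Def

/-!
MP_a4f561_co, polylog pages: step (8), the loop over the phases of a piece and the loop over the roots, for the machine
states of `W_a4f561_h1/Def` (helper34).
-/

set_option autoImplicit false

namespace Pool.Agent.W_a4f561_P34

open Pool.Agent.W_a4f561_h26 Pool.Agent.W_a4f561_P8 Pool.Agent.W_a4f561_h1 Pool.Agent.W_a4f561_P73
open Pool.Agent.W_a4f561_P45

variable {V : Type}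

/-- What the later state keeps of the earlier one. -/
structure Kp (G : Bars V) (X X' : MS V) : Prop where
  S : X.σ.S ⊆ X'.σ.S
  pi : ∀ v ∈ X.σ.S, X'.σ.pi v = X.σ.pi v
  rp : ∀ v ∈ X.σ.S, G.inn v → X'.rt (X'.phs v) = X.rt (X.phs v)

theorem Kp.refl (G : Bars V) (X : MS V) : Kp G X X := ⟨subset_rfl, fun _ _ => rfl, fun _ _ _ => rfl⟩

theorem Kp.trans {G : Bars V} {X X' X'' : MS V} (h : Kp G X X') (h' : Kp G X' X'') : Kp G X X'' :=
  ⟨h.S.trans h'.S, fun v hv => (h'.pi v (h.S hv)).trans (h.pi v hv),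
    fun v hv hi => (h'.rp v (h.S hv) hi).trans (h.rp v hv hi)⟩

section pr

variable [Fintype V] [DecidableEq V]

/-- THE PHASE STEP, in the form which the loops need. -/
def PhaseSt (G : Bars V) (rnk : V → ℕ) (N : ℕ) : Prop :=
  ∀ (X : MS V) (S0 : Set V) (r z : V), WI G rnk N 0 X z → PS G rnk X S0 r z → G.inn r → z ∉ X.σ.S →
    ∃ (X' : MS V) (c : V), WI G rnk N 0 X' c ∧ PS G rnk X' S0 r c ∧ G.t z < G.t c ∧ z ∈ X'.σ.S ∧ Kp G X X'

omit [Fintype V] [DecidableEq V] in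
/-- A vertex in the middle of a piece which is drawn was drawn before the piece. -/
theorem c_in {G : Bars V} {rnk : V → ℕ} {X : MS V} {S0 : Set V} {r c : V} (h : PS G rnk X S0 r c)
    (hc : c ∈ X.σ.S) : c ∈ S0 := by
  by_contra h1
  exact lt_irrefl _ (h.cp c hc h1).2.1

/-- Change of the parameter `c` at a closed state. -/
theorem wi_c {G : Bars V} {rnk : V → ℕ} {N k0 : ℕ} {X : MS V} {c : V} (h : WI G rnk N k0 X c) (hc : c ∈ X.σ.S)
    (c' : V) : WI G rnk N k0 X c' := by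
  have hcl : ∀ v ∈ X.σ.S, X.σ.pi v ∈ X.σ.S := fun v hv => by
    rcases h.inv.cl v hv with h1 | h1
    · exact h1
    · rw [h1]
      exact hc
  exact { h with
    inv := ⟨h.inv.bot_mem, h.inv.top_mem, h.inv.ch, fun v hv => Or.inl (hcl v hv), h.inv.lat, h.inv.recD, h.inv.recU,
      h.inv.decl⟩ }

theorem wi_cl {G : Bars V} {rnk : V → ℕ} {N k0 : ℕ} {X : MS V} {c : V} (h : WI G rnk N k0 X c) (hc : c ∈ X.σ.S) :
    ∀ v ∈ X.σ.S, X.σ.pi v ∈ X.σ.S := fun v hv => by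
  rcases h.inv.cl v hv with h1 | h1
  · exact h1
  · rw [h1]
    exact hc

omit [Fintype V] in
theorem t_le2 (G : Bars V) (v : V) : G.t v ≤ G.N + 2 := by
  by_cases h1 : v = G.bot
  · rw [h1]; exact G.t_bot'
  · by_cases h2 : v = G.top
    · rw [h2]; exact G.t_top'
    · exact (G.t_in v h1 h2).le.trans (by omega)

/-- **THE PHASES OF ONE PIECE.** -/
theorem piece {G : Bars V} {rnk : V → ℕ} {N : ℕ} (hP : PhaseSt G rnk N) (X : MS V) (S0 : Set V) (r z : V)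
    (hW : WI G rnk N 0 X z) (hS : PS G rnk X S0 r z) (hr : G.inn r) (hz : z ∉ X.σ.S) :
    ∃ (X' : MS V) (c : V), WI G rnk N 0 X' c ∧ PS G rnk X' S0 r c ∧ c ∈ X'.σ.S ∧ z ∈ X'.σ.S ∧ Kp G X X' := by
  have key : ∀ n : ℕ, ∀ (X : MS V) (z : V), G.N + 2 - G.t z ≤ n → WI G rnk N 0 X z → PS G rnk X S0 r z → z ∉ X.σ.S →
      ∃ (X' : MS V) (c : V), WI G rnk N 0 X' c ∧ PS G rnk X' S0 r c ∧ c ∈ X'.σ.S ∧ z ∈ X'.σ.S ∧ Kp G X X' := by
    intro n
    induction n with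
    | zero =>
      intro X z hn hW hS hz
      obtain ⟨X1, c1, _, _, h3, _⟩ := hP X S0 r z hW hS hr hz
      have := t_le2 G c1
      omega
    | succ n ih =>
      intro X z hn hW hS hz
      obtain ⟨X1, c1, h1, h2, h3, h4, h5⟩ := hP X S0 r z hW hS hr hz
      by_cases hc : c1 ∈ X1.σ.S
      · exact ⟨X1, c1, h1, h2, hc, h4, h5⟩
      · have := t_le2 G c1
        obtain ⟨X2, c2, k1, k2, k3, k4, k5⟩ := ih X1 c1 (by omega) h1 h2 hc
        exact ⟨X2, c2, k1, k2, k3, k5.S h4, h5.trans k5⟩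
  exact key _ X z le_rfl hW hS hz

/-- The start of a piece. -/
theorem ps_start {G : Bars V} {rnk : V → ℕ} {N : ℕ} {X : MS V} {c : V} (h : WI G rnk N 0 X c) (hc : c ∈ X.σ.S)
    {r : V} (hr : r ∉ X.σ.S) (hlow : ∀ u, rnk u < rnk r → u ∈ X.σ.S)
    (hrt : ∀ k, 1 ≤ k → k ≤ X.np → rnk (X.rt k) ≤ rnk r) : PS G rnk X X.σ.S r r := by
  have hne : ∀ k, 1 ≤ k → k ≤ X.np → X.rt k ≠ r := fun k h1 h2 e => hr (e ▸ (h.rtS k h1 h2).1)
  refine ⟨subset_rfl, wi_cl h hc, h.inv.bot_mem, h.inv.top_mem, hlow, hrt, hr, orb_refl _ _, ?_, ?_, ?_, ?_, ?_, ?_⟩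
  · intro v hv ht
    exact absurd (orb_t h.inv.ch hv) (not_le.2 ht)
  · intro v hv hv'
    exact absurd hv hv'
  · intro v hv hi
    have := h.phs_rng v hv hi
    exact hne _ this.1 this.2
  · intro i h1 h2 h3
    have := h.ph_rng i h1 h2
    exact absurd h3 (hne _ this.1 this.2)
  · intro h1
    exact absurd rfl h1
  · intro _
    exact hne

/-- **THE RUN OF THE MACHINE**: everything is drawn; along a route the piece changes only to a smaller rank. -/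
theorem run_end {G : Bars V} {rnk : V → ℕ} (hr : Rks G rnk) {R N : ℕ} (hR : ∀ v, rnk v < R) (hP : PhaseSt G rnk N)
    (X0 : MS V) (h0 : WI G rnk N 0 X0 G.bot) (hS0 : X0.σ.S = {G.bot, G.top}) (hnp : X0.np = 0) :
    ∃ X : MS V, WI G rnk N 0 X G.bot ∧ (∀ v, v ∈ X.σ.S) ∧
      ∀ u, G.inn u → G.inn (X.σ.pi u) → X.rt (X.phs (X.σ.pi u)) = X.rt (X.phs u) ∨
        rnk (X.rt (X.phs (X.σ.pi u))) < rnk (X.rt (X.phs u)) := by
  obtain ⟨X, own, ⟨h1, _, h2⟩, h3, h4⟩ := loop_end hr hR (fun X : MS V => X.σ.S) (fun X : MS V => X.σ.pi)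
    (fun _ k own X => WI G rnk N 0 X G.bot ∧ (∀ j, 1 ≤ j → j ≤ X.np → rnk (X.rt j) ≤ k) ∧
      ∀ u ∈ X.σ.S, G.inn u → own u = X.rt (X.phs u))
    (fun U0 k own X v T0 T1 hM hL hv hk _ _ _ _ _ => by
      obtain ⟨m1, m2, m3⟩ := hM
      have hvi : G.inn v := ⟨fun e => hv (e ▸ m1.inv.bot_mem), fun e => hv (e ▸ m1.inv.top_mem)⟩
      have hps := ps_start m1 m1.inv.bot_mem hv
        (fun u hu => hL.sub0 (hL.low u (by rw [← hk]; exact hu))) (fun j j1 j2 => by rw [hk]; exact m2 j j1 j2)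
      obtain ⟨X', c, k1, k2, k3, k4, k5⟩ := piece hP X X.σ.S v v (wi_c m1 m1.inv.bot_mem v) hps hvi hv
      refine ⟨X', ⟨k5.S, k5.pi, k1.inv.ch, wi_cl k1 k3, k4, fun u hu hu' => (k2.cp u hu hu').1⟩,
        wi_c k1 k3 _, fun j j1 j2 => by rw [← hk]; exact k2.rts j j1 j2, fun u hu hi => ?_⟩
      by_cases h : u ∈ X.σ.S
      · rw [own'_mem h, m3 u h hi, k5.rp u h hi]
      · rw [own'_not h, (k2.cp u hu h).2.2])
    (fun U0 k own X hM _ _ => ⟨hM.1, fun j j1 j2 => (hM.2.1 j j1 j2).trans (Nat.le_succ k), hM.2.2⟩)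
    X0 hS0 h0.inv.ch (fun u => u) ⟨h0, fun j j1 j2 => by omega, fun u hu hi => by
      rw [hS0] at hu
      rcases hu with rfl | rfl
      · exact absurd rfl hi.1
      · exact absurd rfl hi.2⟩
  refine ⟨X, h1, h3, fun u hi hi' => ?_⟩
  have h5 := h4.step u (h3 u) hi hi'
  rw [h2 u (h3 u) hi, h2 _ (h3 _) hi'] at h5
  exact h5

end pr

end Pool.Agent.W_a4f561_P34
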